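import Pool.Agent.H88.MX.Mot

/-!
# Murre's conjectures and complements with algebraic endomorphisms

Let `𝒜` be the category of Chow motives over a field with rational coefficients (or any `ℚ`-linear
category), `T l` its Tate objects, so that `CH_l(M)` is the group of the morphisms `T l ⟶ M`, and
`H j` the functors of a Weil homology theory (or any additive functors). For a single motive it is
not known whether Murre's conjectures pass to its direct summands: the projectors of a
Chow-Künneth decomposition of `M ⊕ N` need not commute with the projectors to `M` and `N`.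

The theorem says that (A), (A) and (B), (A), (B) and (D), and all conjectures pass from `M ⊕ N` to both
`M` and `N` if every endomorphism of `N` satisfies an equation over `ℚ`. Nothing is assumed about `M`:
the endomorphisms of `M` and the morphisms between `M` and `N` are arbitrary. By theorems of Kimura and
Jannsen the condition holds for all motives `N` which are finite dimensional in the sense of Kimura,
such as motives of abelian type. They also pass to all summands if there is a Chow-Künneth decomposition
of the motive all of whose pieces but one have algebraic endomorphisms.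

For example, if `Y` is the blow-up of `X` in a smooth subvariety `Z` with finite dimensional motive
which satisfies the conjectures (A), (B), (D), then they hold for `Y` if and only if they hold for `X`.
So by weak factorization and the theorems of Kimura and Murre on curves the truth of (A), (B), (D) is a
birational invariant of smooth projective threefolds over a field of characteristic zero, and of
smooth projective varieties of any dimension under modifications with centers of this kind (these
examples are not formalized here).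

The proof: motives with algebraic endomorphisms have the exchange property of Crawley, Jónsson and
Warfield in all decompositions. If `e` is the projector to `N` and `A` the projector to a summand, then
the element `e A e` of the corner ring is algebraic, and a polynomial in it is an idempotent `h` such
that `e A e` is invertible on `h` and `e - e A e` is invertible on `e - h`. This gives summands of `A` and
of `1 - A` which are isomorphic to `h` and to `e - h`, with complements whose sum is isomorphic to `M`.
-/

set_option autoImplicit false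

open CategoryTheory

universe v u v' u'

namespace Pool.Agent.Results.MP_38de51_ag.AlgebraicComplements

open Pool.Agent.H88.MX

/-- **Murre's conjectures and complements with algebraic endomorphisms.**

(0) If the endomorphisms of `N` form a finite dimensional space modulo nilpotent ones, then all
endomorphisms of `N` are algebraic.

(1) Let all endomorphisms of `N` be algebraic, and `Q = M ⊕ N`. Then (A), respectively (A) and (B),
respectively (A), (B) and (D), hold for `Q` if and only if they hold for `M` and for `N`; and if all of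
Murre's conjectures hold for `Q` then they hold for `M` and for `N`.

(2) Let `P` be a Chow-Künneth decomposition of `Q = M ⊕ N` such that for all degrees but one the
endomorphisms of the pieces are algebraic. Then `M` has a Chow-Künneth decomposition. If `P` satisfies
(B), respectively (B) and (D), then (A) and (B), respectively (A), (B) and (D), hold for `M`, and if
moreover (C) holds for `Q` then it holds for `M`.

(3) The truth of (A), (B) and (D) does not change in chains of motives in which one of any two
consecutive motives is the direct sum of the other and of a motive with algebraic endomorphisms which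
satisfies (A), (B) and (D). -/
theorem result {𝒜 : Type u} [Category.{v} 𝒜] [Preadditive 𝒜] [Linear ℚ 𝒜] {𝒢 : Type u'}
    [Category.{v'} 𝒢] [Preadditive 𝒢] (T : ℤ → 𝒜) (H : ℤ → 𝒜 ⥤ 𝒢) [∀ j, (H j).Additive] :
    (∀ N : 𝒜, FiniteModNil N → AlgebraicEnd N) ∧
    (∀ Q M N : 𝒜, IsSum Q M N → AlgebraicEnd N →
      (MurreA H Q ↔ MurreA H M ∧ MurreA H N) ∧
      (MurreAB T H Q ↔ MurreAB T H M ∧ MurreAB T H N) ∧
      (MurreABD T H Q ↔ MurreABD T H M ∧ MurreABD T H N) ∧
      (MurreABD T H Q ∧ MurreC T H Q →
        (MurreABD T H M ∧ MurreC T H M) ∧ MurreABD T H N ∧ MurreC T H N)) ∧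
    (∀ Q M N : 𝒜, IsSum Q M N → ∀ (P : ℤ → (Q ⟶ Q)) (w : ℤ), IsCK H Q P →
      (∀ j, j ≠ w → AlgebraicPiece (P j)) →
      MurreA H M ∧ (SatB T P → MurreAB T H M) ∧ (SatB T P → SatD T H P → MurreABD T H M) ∧
        (MurreC T H Q → MurreC T H M)) ∧
    ∀ M M' : 𝒜, Relation.EqvGen (fun M M' => ∃ N, IsSum M' M N ∧ AlgebraicEnd N ∧ MurreABD T H N)
      M M' → (MurreABD T H M ↔ MurreABD T H M') := by
  have hA : ∀ Q M N : 𝒜, IsSum Q M N → MurreA H M → MurreA H N → MurreA H Q := by
    rintro Q M N ⟨iM, rM, iN, rN, h1, h2, h3, h4, h5⟩ ⟨p, hp⟩ ⟨q, hq⟩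
    exact ⟨_, hp.add h1 h2 h3 h4 h5 hq⟩
  have hAB : ∀ Q M N : 𝒜, IsSum Q M N → MurreAB T H M → MurreAB T H N → MurreAB T H Q := by
    rintro Q M N ⟨iM, rM, iN, rN, h1, h2, h3, h4, h5⟩ ⟨p, hp, hpB⟩ ⟨q, hq, hqB⟩
    exact ⟨_, hp.add h1 h2 h3 h4 h5 hq, satB_add hpB hqB⟩
  have hABD : ∀ Q M N : 𝒜, IsSum Q M N → MurreABD T H M → MurreABD T H N → MurreABD T H Q := by
    rintro Q M N ⟨iM, rM, iN, rN, h1, h2, h3, h4, h5⟩ ⟨p, hp, hpB, hpD⟩ ⟨q, hq, hqB, hqD⟩
    exact ⟨_, hp.add h1 h2 h3 h4 h5 hq, satB_add hpB hqB, satD_add h1 h2 h3 h4 hpD hqD⟩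
  have hdown : ∀ Q M N : 𝒜, IsSum Q M N → AlgebraicEnd N → MurreABD T H Q →
      MurreABD T H M ∧ MurreABD T H N := by
    rintro Q M N h hN ⟨P, hP, hB, hD⟩
    obtain ⟨⟨q, hq, hq'⟩, ⟨q₁, hq₁, hq₁'⟩⟩ := ck_of_complement h hN hP
    exact ⟨⟨q, hq, satB_of_below hq' hB, satD_of_below hq' hD⟩,
      ⟨q₁, hq₁, satB_of_below hq₁' hB, satD_of_below hq₁' hD⟩⟩
  have hup : ∀ M : 𝒜, MurreABD T H M → MurreA H M := fun M ⟨p, hp, _⟩ => ⟨p, hp⟩
  refine ⟨fun N hN => algebraicEnd_of_finiteModNil hN, fun Q M N h hN => ⟨⟨?_, ?_⟩, ⟨?_, ?_⟩,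
    ⟨hdown Q M N h hN, fun h' => hABD Q M N h h'.1 h'.2⟩, ?_⟩, fun Q M N h P w hP hw => ?_,
    fun M M' h => ?_⟩
  · rintro ⟨P, hP⟩
    obtain ⟨⟨q, hq, -⟩, ⟨q₁, hq₁, -⟩⟩ := ck_of_complement h hN hP
    exact ⟨⟨q, hq⟩, ⟨q₁, hq₁⟩⟩
  · exact fun h' => hA Q M N h h'.1 h'.2
  · rintro ⟨P, hP, hB⟩
    obtain ⟨⟨q, hq, hq'⟩, ⟨q₁, hq₁, hq₁'⟩⟩ := ck_of_complement h hN hP
    exact ⟨⟨q, hq, satB_of_below hq' hB⟩, ⟨q₁, hq₁, satB_of_below hq₁' hB⟩⟩
  · exact fun h' => hAB Q M N h h'.1 h'.2
  · rintro ⟨h1, h2⟩
    obtain ⟨h3, h4⟩ := hdown Q M N h hN h1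
    exact ⟨⟨h3, murreC_left h (hup N h4) h2⟩, h4, murreC_left h.symm (hup M h3) h2⟩
  · obtain ⟨q, hq, hq'⟩ := ck_of_pieces h hP w hw
    obtain ⟨q₁, hq₁, -⟩ := ck_of_pieces h.symm hP w hw
    exact ⟨⟨q, hq⟩, fun hB => ⟨q, hq, satB_of_below hq' hB⟩,
      fun hB hD => ⟨q, hq, satB_of_below hq' hB, satD_of_below hq' hD⟩,
      fun hC => murreC_left h ⟨q₁, hq₁⟩ hC⟩
  · induction h with
    | rel M M' h =>
      obtain ⟨N, h, hN, hN'⟩ := h
      exact ⟨fun hM => hABD M' M N h hM hN', fun hM' => (hdown M' M N h hN hM').1⟩
    | refl M => exact Iff.rfl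
    | symm M M' _ ih => exact ih.symm
    | trans M M' M'' _ _ ih ih' => exact ih.trans ih'

end Pool.Agent.Results.MP_38de51_ag.AlgebraicComplements
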