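import Pool.Agent.H95.WC.Murre

/-!
# Murre's conjectures and coverings of affine spaces

Let `𝒜` be the category of Chow motives over the perfect field `k` with rational coefficients, `T l` its
Tate objects, `h(X)` the motive of `X` and `H_j` a Weil homology theory (`IsHomology`).

To every separated scheme `X` of finite type over `k` belongs its weight complex with compact support
`W(X)` (Gillet and Soulé, Bondarko), a bounded complex of motives up to homotopy; for smooth projective
`X` it is the motive of `X` in degree zero. Hypotheses `IsFlatWeightComplex`, `HasCoverings`: there are
distinguished triangles for closed-open decompositions, `W` of an affine bundle is a Tate twist of `W` of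
the base, and the same holds for flat morphisms with affine spaces as fibres (flat pull-back and
localization), `W` of an open and closed subscheme of `X` is a direct factor of `W(X)`, `W(Spec A)` is a
retract of a shift of `W(𝔾_m × Spec A)` and of the weight complexes of the coverings `s ^ d = u`, `u` a
unit, and `W(Spec k)` is the unit object.

By Jannsen, Murre's conjectures (A), (B), (C), (D) for all motives are equivalent to the statement
that every motive `M` has a Chow-Künneth decomposition `M = ⨁ M_i` such that for all motives `N` with
homology only in degree `j` there are no nonzero morphisms `N → M_i` for `i < j` and no nonzero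
homologically trivial morphisms `N → M_j`. In the strong form in dimension at most `n` both `M` and `N`
are motives of dimension at most `n` (`DimGen`: obtained from the motives of smooth projective varieties
of dimension at most `n` by direct sums, Tate twists and direct summands), and these `M` are called
strong Murre motives (`Strong`). A complex of motives is `Null` if it is contractible modulo the
morphisms which factor through strong Murre motives.

Let `CBuilt n` be the smallest class of schemes over `k` which contains all separated schemes of finite
type of dimension at most `n` and is closed under closed-open decompositions (two out of three), certain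
affine bundles (in both directions), division by `𝔾_m` and descent along the cyclic coverings
`s ^ d = u`, and which contains with `Spec A` and the closed subscheme `f = 0` of `Spec A` the covering
`∏_{c ∈ S} (w - c) = ∑ x_l f_l` of `𝔸^m_A`, for finite non-empty sets `S ⊆ k`, and conversely, if
`|S| ≥ 2`, with `Spec A` and the covering the closed subscheme `f = 0`. There is no restriction on the
dimension of the schemes in this class.

For polynomials `f_1, …, f_m` in the variables `z_1, …, z_N` let `zeroS f` be the closed subscheme
`f_1 = … = f_m = 0` of the affine space, and `covS S f` the covering `∏_{c ∈ S} (w - c) = ∑ x_l f_l(z)` of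
the affine space with the coordinates `z_1, …, z_N, x_1, …, x_m`. For a trilinear form
`t(x, y, z) = ∑ t_ijl x_i y_j z_l` the polynomials `bq t` are the bilinear forms `∑ t_ijl x_i y_j`; so
`covS {α, β} (bq t)` is the double covering `(w - α)(w - β) = t(x, y, z)`.

We show, if there is resolution of singularities in dimension at most `n`:

(1) The Chow motives of all smooth projective varieties in `CBuilt n`, of any dimension, are motives of
dimension at most `n`.

(2) The strong form of Murre's conjectures for the motives of dimension at most `n` is equivalent to the
statement that the weight complexes of all schemes in `CBuilt n` are null, and to the same statement for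
the coverings `∏_{c ∈ S} (w - c) = t(x, y, z)` for all trilinear forms `t` over `k` with at most `n + 2`
variables `z`, for one fixed set `S ⊆ k` with at least two elements.

(3) All these coverings are smooth over `k`; and the class `CBuilt n` contains the covering
`∏_{c ∈ S} (w - c) = t(x, y, z)` if there are at most `n + 2` variables `z`, and the covering
`∏_{c ∈ S} (w - c) = ∑ x_l f_l(z)` if there are at most `n + 1` variables `z_i`, or if the scheme `f = 0`
has dimension at most `n`, or if `f_1, …, f_(n+1)` have degree at most two and all other `f_l` degree at
most one (`2 ≠ 0` in `k`).

By (1), with `n = 2`, the Chow motives of all smooth projective varieties in `CBuilt 2`, of any dimension,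
are direct summands of sums of Tate twists of motives of surfaces; and for these (A), (B) and (D) are
known. So Murre's conjectures (A), (B), (D) are true for all these varieties, for example if they have a
decomposition into locally closed pieces which are coverings of one of the kinds in (3) with `n = 2`.

Proof. Let `B` be the covering `∏_{c ∈ S} (w - c) = ∑ x_l f_l` of `𝔸^m_A`, `c₀ ∈ S` and `S' = S - {c₀}`. The
closed subscheme `∏_{c ∈ S'} (w - c) = 0 = f` of `B` is the sum of `|S| - 1` copies of `𝔸^m` over the scheme
`f = 0`, and its complement is flat over `Spec A` with the fibres `𝔸^m`.
-/

set_option autoImplicit false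

open CategoryTheory Limits MonoidalCategory AlgebraicGeometry Pool.Agent.Y116.UV
  Pool.Agent.W5h93.EX Pool.Agent.W5h93.WC Pool.Agent.W5h68.CP Pool.Agent.H95.WC

universe v u v' u'

namespace Pool.Agent.Results.MP_38de51_ag.CoveringsOfAffineSpaces

/-- **Murre's conjectures and coverings of affine spaces.** See the explanations above. -/
theorem result {k : Type} [Field k] [PerfectField k] {𝒜 : Type u} [Category.{v} 𝒜] [Preadditive 𝒜]
    [HasZeroObject 𝒜] [HasBinaryBiproducts 𝒜] [IsIdempotentComplete 𝒜] [MonoidalCategory 𝒜]
    [MonoidalPreadditive 𝒜] [RightRigidCategory 𝒜] {𝒢 : Type u'} [Category.{v'} 𝒢] [Preadditive 𝒢]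
    {T : ℤ → 𝒜} (hT : IsTate T) {H : ℤ → 𝒜 ⥤ 𝒢} (hH : IsHomology T H)
    {W : Sch k → HomotopyCategory 𝒜 (ComplexShape.up ℤ)} (hW : IsFlatWeightComplex T W)
    (hc : HasCoverings W) {Q : Sch k → Prop} (hQ : IsClass Q) (hpt : Q (aff k k)) {h : Sch k → 𝒜}
    (hh : ∀ X, Q X → Nonempty (W X ≅ cpx (h X))) (n : ℕ) (hM : ModelsIn Q n) :
    (∀ X, Q X → CBuilt n X → DimGen T h Q n (h X)) ∧
    ((∀ M, DimGen T h Q n M → Strong H (DimGen T h Q n) M) ↔
      ∀ X : Sch k, CBuilt n X → Null (Strong H (DimGen T h Q n)) (W X).as) ∧
    (∀ S : Finset k, 2 ≤ S.card →
      ((∀ M, DimGen T h Q n M → Strong H (DimGen T h Q n) M) ↔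
        FormCoverings S (n + 2) fun X => Null (Strong H (DimGen T h Q n)) (W X).as)) ∧
    CovMembers k :=
  ⟨fun _ hX hb => dimGen_of_cbuilt hW hc hQ hpt hh hM hX hb,
    (murre_cbuilt hT hH hW hQ hh hc hpt n hM).1, (murre_cbuilt hT hH hW hQ hh hc hpt n hM).2,
    covMembers⟩

end Pool.Agent.Results.MP_38de51_ag.CoveringsOfAffineSpaces
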