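import Pool.Agent.H9.LG.Murre

/-!
# Murre's conjectures and labelled graphs of maximal degree three

Let `𝒜` be the category of Chow motives over the perfect field `k` with rational coefficients, `T l` its
Tate objects, `h(X)` the motive of `X` and `H_j` a Weil homology theory (`IsHomology`). The elements of
`CH_l(M)` are the morphisms `T l → M`. To every separated scheme `X` of finite type over `k` belongs its
weight complex with compact support `W(X)` (Gillet and Soulé, Bondarko), a complex of Chow motives up to
homotopy; for smooth projective `X` it is the motive `h(X)` in degree zero. Hypotheses `IsWeightComplex`,
`HasFiniteCovers`: there are distinguished triangles for closed-open decompositions, `W` of an affine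
bundle is a Tate twist of `W` of the base, `W(Spec A)` is a retract of a shift of `W(𝔾_m × Spec A)` and of
the weight complexes of the finite free coverings of `Spec A`, and `W(Spec k)` is the unit object.
`HasAlterations` is the theorem of de Jong for the class `Q` of smooth projective varieties.

By Jannsen, Murre's conjectures (A), (B), (C), (D) for all motives are equivalent to the statement
that every motive `M` has a Chow-Künneth decomposition `M = ⨁ M_i` such that for all motives `N` with
homology only in degree `j` there are no nonzero morphisms `N → M_i` for `i < j` and no nonzero
homologically trivial morphisms `N → M_j`. These `M` are called strong Murre motives (`Strong`); if only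
motives `N` of a class containing `M` are considered, they are strong Murre motives with respect to this
class. The motives of dimension at most `n` (`DimGen`) are the direct summands of the sums of Tate twists
of motives of varieties in `Q` of dimension at most `n`. A complex of motives is `Null` if it is
contractible modulo the morphisms which factor through strong Murre motives.

Let `G` be a finite bipartite graph of maximal degree at most three, whose edges are labelled by elements
of `k` and by variables `x_1, …, x_d` (`LabelledGraph k d`). Its adjacency matrix `G.adj` is a symmetric
matrix of labels and zeros, with at most three elements different from zero in each row, and `G.scheme`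
is the open subscheme of the affine space of dimension `d` where this matrix is invertible. (Up to a sign
the determinant is the square of the signed sum over the perfect matchings of `G` of the products of the
labels of the edges.)

**Theorem.** (1) For every `n` the strong form of Murre's conjectures for the motives of dimension at most
`n` (all these motives are strong Murre motives with respect to the class of these motives) is equivalent
to the statement that the weight complexes of the open subschemes `G.scheme` of the affine space of
dimension `n + 1` are null, for all labelled bipartite graphs `G` of maximal degree at most three with the
variables `x_1, …, x_(n+1)`.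
(2) Murre's conjectures (A), (B), (C), (D) for all motives over `k` are equivalent to the same statement
for the labelled graphs with any number of variables.
(3) For each smooth projective variety `X` of dimension at most `n` there are finitely many labelled
graphs with `n + 1` variables such that `h(X)` is a strong Murre motive if the weight complexes of their
schemes are null.
If `k = ℚ` or `k = 𝔽_p`, it is enough to consider the graphs whose edges are labelled by `1` and by
variables.

The construction of matrices with at most three elements different from zero in each row and column, with
a given polynomial as determinant (a sparse form of the theorem of Valiant) is in the starting library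
(`MP_fc2ced_ag.SparseLinearSections`); the graph is the bipartite graph of such a matrix.
-/

set_option autoImplicit false

open CategoryTheory Limits MonoidalCategory AlgebraicGeometry Pool.Agent.Y116.UV
  Pool.Agent.W5h93.EX Pool.Agent.W5h93.WC Pool.Agent.H9.CD Pool.Agent.H9.LG

universe v u v' u'

namespace Pool.Agent.Results.MP_38de51_ag.LabelledGraphs

/-- **Murre's conjectures and labelled graphs of maximal degree three.** See the explanations above. -/
theorem result {k : Type} [Field k] [PerfectField k] {𝒜 : Type u} [Category.{v} 𝒜] [Preadditive 𝒜]
    [HasZeroObject 𝒜] [HasBinaryBiproducts 𝒜] [IsIdempotentComplete 𝒜] [MonoidalCategory 𝒜]
    [MonoidalPreadditive 𝒜] [RightRigidCategory 𝒜] {𝒢 : Type u'} [Category.{v'} 𝒢] [Preadditive 𝒢]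
    {T : ℤ → 𝒜} (hT : IsTate T) {H : ℤ → 𝒜 ⥤ 𝒢} (hH : IsHomology T H)
    {W : Sch k → HomotopyCategory 𝒜 (ComplexShape.up ℤ)} (hW : IsWeightComplex T W)
    (hc : HasFiniteCovers W) {Q : Sch k → Prop} (hQ : IsClass Q) (hA : HasAlterations Q)
    (hpt : Q (aff k k)) {h : Sch k → 𝒜} (hh : ∀ X, Q X → Nonempty (W X ≅ cpx (h X)))
    (hG : ∀ M, Gen T h Q M) : MurreGraphs T H W Q h :=
  murreGraphs hT hH hW hQ hh hc hA hpt hG

end Pool.Agent.Results.MP_38de51_ag.LabelledGraphs
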