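import Pool.Agent.H91.QS.Murre

/-!
# Murre's conjectures and systems of quadratic equations

Let `𝒜` be the category of Chow motives over the perfect field `k` of characteristic `≠ 2` with rational
coefficients, `T l` its Tate objects, `h(X)` the motive of `X` and `H_j` a Weil homology theory
(`IsHomology`). To every separated scheme `X` of finite type over `k` belongs its weight complex with
compact support `W(X)` (Gillet and Soulé, Bondarko), a complex of Chow motives up to homotopy
(`IsWeightComplex`: triangles for closed-open decompositions, affine bundles, the torus and the point;
`HasCoverings`: the weight complex of the base is a direct factor of the weight complex of the covering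
`s ^ d = u`). For smooth projective `X` it is the motive `h(X)` in degree zero.

By Jannsen, Murre's conjectures (A), (B), (C), (D) for all motives are equivalent to the statement
that every motive `M` has a Chow-Künneth decomposition `M = ⨁ M_i` such that for all motives `N` with
homology only in degree `j` there are no nonzero morphisms `N → M_i` for `i < j` and no nonzero
homologically trivial morphisms `N → M_j`. In the strong form in dimension at most `n` both `M` and `N`
are motives of dimension at most `n` (`DimGen`: obtained from the motives of smooth projective varieties
of dimension at most `n` by direct sums, Tate twists and direct summands), and these `M` are called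
strong Murre motives (`Strong`). A complex of motives is `Null` if it is contractible modulo the
morphisms which factor through strong Murre motives.

Let `Built k n` be the smallest class of schemes which contains the affine schemes of dimension at most
`n` and is closed under closed-open decompositions (two out of three), affine bundles (in both
directions), division by `𝔾_m` and descent along the coverings `s ^ d = u`, `u` a unit. We show:

(1) `Built k n` contains all schemes given by `r + 1` quadratic equations and any number of linear
equations in any number of variables over an affine base `Spec A`, if `dim A + r ≤ n`. It contains all
closed subschemes of projective spaces which are the intersection of `n + 1` quadrics and hyperplanes.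

(2) If there is resolution of singularities in dimension at most `n`, then the Chow motives of all smooth
projective varieties in `Built k n`, of any dimension, are motives of dimension at most `n`.

(3) Then the strong form of Murre's conjectures for the motives of dimension at most `n` is equivalent to
the statement that the weight complexes of all schemes in `Built k n` are null.

(4) It follows from the statement that the weight complexes of all affine schemes given by `n + 2`
quadratic equations are null.

By (2), with `n = 2`, the Chow motives of all smooth projective varieties which have a decomposition
into locally closed pieces each given by quadratic equations over a surface, by two quadratic equations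
over a curve, or by three quadratic equations over `k`, and by any number of linear equations, are direct
summands of sums of Tate twists of motives of surfaces; and for these (A), (B) and (D) are known. So
Murre's conjectures (A), (B), (D) are true for all these varieties, for example for all smooth projective
intersections of three quadrics, all families of intersections of two quadrics over curves and all
quadric fibrations over surfaces, with arbitrary degenerate fibres.

Proof. If `q_0, …, q_r` are polynomials of degree two on the base times an affine space, then the
hypersurface `∑ y_l q_l(x) = 1` is an affine bundle over the complement of `q = 0`. By scaling `y` one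
reduces it to families of affine quadrics over a base whose dimension is larger by `r`, and affine
quadrics over a field are, up to coverings of degree two and descent, built from the base.
-/

set_option autoImplicit false

open CategoryTheory Limits MonoidalCategory AlgebraicGeometry Pool.Agent.Y116.UV
  Pool.Agent.W5h93.EX Pool.Agent.W5h93.WC Pool.Agent.W5h68.CP Pool.Agent.H91.QS

universe v u v' u'

namespace Pool.Agent.Results.MP_38de51_ag.QuadraticSystems

/-- **Murre's conjectures and systems of quadratic equations.** See the explanations above. -/
theorem result {k : Type} [Field k] [PerfectField k] (h2 : (2 : k) ≠ 0) {𝒜 : Type u}
    [Category.{v} 𝒜] [Preadditive 𝒜] [HasZeroObject 𝒜] [HasBinaryBiproducts 𝒜]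
    [IsIdempotentComplete 𝒜] [MonoidalCategory 𝒜] [MonoidalPreadditive 𝒜] [RightRigidCategory 𝒜]
    {𝒢 : Type u'} [Category.{v'} 𝒢] [Preadditive 𝒢] {T : ℤ → 𝒜} (hT : IsTate T)
    {H : ℤ → 𝒜 ⥤ 𝒢} (hH : IsHomology T H) {W : Sch k → HomotopyCategory 𝒜 (ComplexShape.up ℤ)}
    (hW : IsWeightComplex T W) (hc : HasCoverings W) {Q : Sch k → Prop} (hQ : IsClass Q)
    (hpt : Q (aff k k)) {h : Sch k → 𝒜} (hh : ∀ X, Q X → Nonempty (W X ≅ cpx (h X))) (n : ℕ) :
    (AffineQuadrics k n (Built k n) ∧ ProjectiveQuadrics k n (Built k n)) ∧
    (ModelsIn Q n → ∀ X, Q X → Built k n X → DimGen T h Q n (h X)) ∧
    (ModelsIn Q n → ((∀ M, DimGen T h Q n M → Strong H (DimGen T h Q n) M) ↔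
      ∀ X : Sch k, Built k n X → Null (Strong H (DimGen T h Q n)) (W X).as)) ∧
    (QuadraticSystems k (n + 2) (fun X => Null (Strong H (DimGen T h Q n)) (W X).as) →
      ∀ M, DimGen T h Q n M → Strong H (DimGen T h Q n) M) :=
  ⟨⟨affineQuadrics_built h2 n, projectiveQuadrics_built h2 n⟩,
    fun hM _ hX hb => dimGen_of_built hW hc hQ hpt hh hM hX hb,
    fun hM => murre_built_iff hT hH hW hQ hh hc hpt n hM, murre_systems hT hH hW hQ hh n⟩

end Pool.Agent.Results.MP_38de51_ag.QuadraticSystems
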